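import Pool.Agent.K9h78.GBc
import Pool.Agent.K9h78.GBd
import Pool.Agent.K9h78.GBe

/-!
# Answer to Q2: limit levels of cofinality less than `λ`

Here `κ` is the cardinal `λ` of the question; `Sp κ` is the space of all functions from `κ` to `κ`
with the bounded topology, and `X`, `Y` are arbitrary subspaces of it. Let `ξ < κ⁺` be a limit
ordinal with `cof ξ < κ`.

* The class `lim_κ (\hat lim^ξ_{cof ξ} M_{<ξ}(X, Y))` is `M_ξ(X, Y)`, for all `X` and `Y`.
* So it is different from `M_{ξ+1}(X, Y)` if `X` is the whole space and `Y` has two points.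
* The inclusion `M_{ξ+1}(X, Y) ⊆ lim_κ (lim_{cof ξ} M_{<ξ}(X, Y))` holds for all `X` and `Y`.
-/

set_option autoImplicit false

namespace Pool.Agent.Results.MP_f4bae3_lc.LimitLevels

open Cardinal Set Pool.Agent.R590.Kur Pool.Agent.R590.Brl Pool.Agent.K9h78.GB

theorem result (κ : Cardinal.{0}) (hκ : κ.IsRegular) (h0 : ℵ₀ < κ)
    (h2 : (2 : Cardinal.{0}) ^< κ = κ) (ξ : Ordinal.{0}) (hξ : Order.IsSuccLimit ξ)
    (hξκ : ξ < (Order.succ κ).ord) (hc : ξ.cof < κ) :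
    (∀ (X Y : Set (Sp κ)) (f : X → Y),
      Lim κ.ord.ToType (HLim κ ξ ξ.cof.ord.ToType (MeasLt κ ξ)) f ↔ Meas κ ξ f) ∧
    (∀ Y : Set (Sp κ), Y.Nontrivial → ∃ f : ↥(Set.univ : Set (Sp κ)) → Y, Meas κ (ξ + 1) f ∧
      ¬ Lim κ.ord.ToType (HLim κ ξ ξ.cof.ord.ToType (MeasLt κ ξ)) f) ∧
    ∀ (X Y : Set (Sp κ)) (f : X → Y), Meas κ (ξ + 1) f →
      Lim κ.ord.ToType (Lim ξ.cof.ord.ToType (MeasLt κ ξ)) f := by
  classical
  have h1 : (1 : Ordinal.{0}) < ξ := Ordinal.one_lt_of_isSuccLimit hξ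
  have hM : #(ξ.cof.ord.ToType) ≤ κ := by
    rw [mk_ord_toType]
    exact hc.le
  have part1 : ∀ (X Y : Set (Sp κ)) (f : X → Y),
      Lim κ.ord.ToType (HLim κ ξ ξ.cof.ord.ToType (MeasLt κ ξ)) f ↔ Meas κ ξ f := by
    intro X Y f
    constructor
    · rintro ⟨F, hF, hl⟩
      exact meas_of_lim hκ h2 hξ hc ⟨F, fun α => meas_of_hlim hκ h2 h1.le hM (hF α), hl⟩
    · exact lim_of_meas hκ h2 hξ hc.le
  refine ⟨part1, ?_, fun X Y f hf => weak hκ h0 h2 hξ hc hf⟩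
  rintro Y ⟨y0, hy0, y1, hy1, hne⟩
  obtain ⟨A, hA1, hA2⟩ := noncollapse hκ h2 ξ h1.le hξκ
  refine ⟨fun x => if x.1 ∈ A then ⟨y1, hy1⟩ else ⟨y0, hy0⟩, ?_, fun hcon => ?_⟩
  · intro U _
    have hB : Sig κ ξ (((↑) ⁻¹' A : Set (Set.univ : Set (Sp κ)))ᶜ) :=
      sig_preimage (k := fun x : ↥(Set.univ : Set (Sp κ)) => x.1) continuous_subtype_val hA1
    have hB' := hB.compl hκ
    rw [compl_compl] at hB'
    have heq : (fun x : ↥(Set.univ : Set (Sp κ)) =>
        if x.1 ∈ A then (⟨y1, hy1⟩ : Y) else ⟨y0, hy0⟩) ⁻¹' U =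
        (((↑) ⁻¹' A : Set (Set.univ : Set (Sp κ))) ∩ {_x | (⟨y1, hy1⟩ : Y) ∈ U}) ∪
        (((↑) ⁻¹' A : Set (Set.univ : Set (Sp κ)))ᶜ ∩ {_x | (⟨y0, hy0⟩ : Y) ∈ U}) := by
      ext x
      simp only [mem_preimage, mem_union, mem_inter_iff, mem_ofPred_eq, mem_compl_iff]
      by_cases hx : x.1 ∈ A
      · simp [hx]
      · simp [hx]
    rw [heq]
    exact sig_union hκ (sig_inter hκ h2 hB' (sig_const hκ h2 le_add_self _))
      (sig_inter hκ h2 (sig_mono hκ h2 hB le_self_add) (sig_const hκ h2 le_add_self _))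
  · rw [part1] at hcon
    apply hA2
    obtain ⟨β, hβ⟩ : ∃ β, y0 β ≠ y1 β := by
      by_contra h
      push Not at h
      exact hne (funext h)
    obtain ⟨α, hα⟩ := exists_ub hκ (M := Unit)
      (by rw [mk_unit]; exact one_lt_aleph0.trans h0) fun _ => β
    have h3 := hcon ((↑) ⁻¹' {y : Sp κ | Agree y y1 α}) ((isOpen_cyl _ _).preimage
      continuous_subtype_val)
    have h4 := sig_preimage (k := fun x : Sp κ => (⟨x, mem_univ x⟩ : (Set.univ : Set (Sp κ))))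
      (continuous_id.subtype_mk _) h3
    convert h4 using 1
    ext x
    simp only [mem_preimage, mem_ofPred_eq]
    by_cases hx : x ∈ A
    · simp only [hx, if_true, true_iff]
      exact Agree.refl _ _
    · simp only [hx, if_false, false_iff]
      exact fun h => hβ (h β (hα ()))

end Pool.Agent.Results.MP_f4bae3_lc.LimitLevels
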